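import Pool.Agent.TH376.TC.AJ

/-!
# The Abel–Jacobi map and cubic hypersurfaces

Let `E_g` be the hypersurface `g_0 t_0 + ⋯ + g_r t_r = 0` in `𝔸^(n+r+1)`. The rational Chow groups
of a quasi-projective variety `X` are contained in the rational Chow groups of such a hypersurface,
by pull-back to a bundle of affine spaces and push-forward. So a homologically trivial
cycle in the kernel of the Abel–Jacobi map of `X` gives one for `E_g`.
-/

set_option autoImplicit false

open CategoryTheory CategoryTheory.Limits AlgebraicGeometry Pool.Agent.TH90.Cub
  Pool.Agent.TH376.TC

namespace Pool.Agent.Results.MP_537ea0_ag.CubicHypersurfaces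

/-- **Reduction of the injectivity of the Abel–Jacobi map to cubic hypersurfaces.** Let `S` be a set
which contains `1` and generates the field `k` (an algebraic closure of `ℚ` in `ℂ`). The rational
Abel–Jacobi map is injective for all quasi-projective varieties over `k` (in Borel–Moore homology)
if and only if it is injective for the hypersurfaces `E_g`, given by `g_0 t_0 + ⋯ + g_r t_r = 0`,
each `g_i` being one of `x_a x_b - x_c`, `x_a + x_b - x_c`, `x_a - c` with `c` in `S`. In this case
it is injective for all smooth quasi-projective varieties over `k`. -/
theorem result {k : Type} [Field k] (T : AJTheory k) (hH : HProps T.toHMaps) (hT : T.Known)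
    (S : Set k) (hS : Subfield.closure S = ⊤) (h1 : (1 : k) ∈ S) :
    ((∀ X : Sch k, QProj X → T.Injective X) ↔ ForCubics S T.Injective) ∧
      (ForCubics S T.Injective → ∀ X : Sch k, Smooth X.hom → QProj X → T.Injective X) :=
  ⟨AJTheory.injective_iff hH hT hS h1, fun h X _ hX =>
    (AJTheory.injective_iff hH hT hS h1).mpr h X hX⟩

end Pool.Agent.Results.MP_537ea0_ag.CubicHypersurfaces
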