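import Pool.Agent.TH85.OV.Main

/-!
# Abel-Jacobi maps of open varieties and the standard conjecture D

`𝒱` is a class of smooth projective geometrically irreducible varieties over the field `k` closed
under products (for the problem: all of them, over the algebraic closure `k` of `ℚ` in `ℂ`), `C` the
Chow groups with rational coefficients and `H` a Weil cohomology theory with coefficients in `ℚ`,
for the problem Betti cohomology; they enter through their formal properties (`IsChowProj`,
`IsWeilProj`, finite dimension). `O` is the collection of the Chow groups, of the images of
`H^m(X) → H^m(V)` and of the Abel-Jacobi maps for the open subvarieties `V` of the varieties `X` of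
the class (`OpenData`), with their formal properties (`OpenData.IsBetti`). By resolution of
singularities each smooth quasiprojective variety is such a `V`. `O.Injective V i` says that the
Abel-Jacobi map of `V` in codimension `i` is injective with rational coefficients; the question of
the problem is whether this holds for all `V` and `i`.

`S` is the set of the products `P^N × P^M` of two projective spaces (`IsAmbient`), and `R` the set of
the rational varieties (`IsRich`).

Theorem. (1) Let `X` be cellular (for example a product of projective spaces or of Grassmannians), and
let the complement of the open set `V` of `X` be the union of the images of `f j : Z j ⟶ X`. The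
Abel-Jacobi map of `V` in codimension `i` is injective if and only if homological and numerical
equivalence agree on the restrictions to the `Z j` of the classes `β ∈ CH^(dim X - i)(X)`.

(2) The following are equivalent:
* the standard conjecture D for all varieties: numerically trivial cycles are homologically trivial;
* the Abel-Jacobi map in codimension `i` is injective for all open `V` in `X` such that
  `H^(2i-1)(X) = 0` and `CH^i(X)_hom = 0`;
* the Abel-Jacobi maps of all open subvarieties of all products `P^N × P^M` are injective;
* the same for the complements of closed smooth rational subvarieties of dimension `2 n` in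
  `P^N × P^M`, in codimension `N + M - n`.

Proof. For cellular `X` the Abel-Jacobi map of `V` is zero and its injectivity means that a class
`x ∈ CH^i(X) = H^(2i)(X)` which comes from the cohomology of the `Z j` comes from cycles on the `Z j`.
The classes on `X` orthogonal to the push-forwards of all classes (of all cycles) on the `Z j` are
those `β` with homologically (numerically) trivial restrictions, so (1) follows from Poincare duality
on `X` and linear algebra. By `Pool.Agent.TH85.PD.num_hom_iff` the standard conjecture D follows from
its case of the powers `ξ^n` of divisor classes on rational varieties `Y` of dimension `2 n`; up to a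
factor, `ξ` is the restriction of a divisor class along a closed immersion of `Y` in a product
`P^N × P^M`.
-/

open CategoryTheory AlgebraicGeometry

set_option autoImplicit false

universe u v

namespace Pool.Agent.Results.MP_537ea0_ag.OpenInProducts

open Pool.Agent.H914 Pool.Agent.W492.BB Pool.Agent.TH133 Pool.Agent.TH85.PD Pool.Agent.TH85.OV

/-- (1) For open `V` in a cellular `X`, with complement the union of the images of `f j : Z j ⟶ X`,
the Abel-Jacobi map in codimension `i` is injective if and only if homological and numerical
equivalence agree on the restrictions to the `Z j` of the classes in `CH^(dim X - i)(X)`.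

(2) The standard conjecture D is equivalent to the injectivity of the Abel-Jacobi maps for all open
`V` in varieties `X` with `H^(2i-1)(X) = 0` and `CH^i(X)_hom = 0`; for all open `V` in products of two
projective spaces (the members of `S`); and for the complements in these of closed smooth
subvarieties of dimension `2 n` in the class `R` of rational varieties, in codimension
`dim G - n`. -/
theorem result {k : Type u} [Field k] {𝒱 : VarClass k} (C : TheoryData.{u, v, 0} 𝒱 ℚ)
    [IsChowProj C] (H : WeilTheoryData.{u, v, 0} C ℚ) [IsWeilProj H]
    (hfin : ∀ X : 𝒱.Obj, Module.Finite ℚ (H.A X)) (O : OpenData H) (hO : O.IsBetti)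
    (R S : Set 𝒱.Obj) (hR : IsRich C R) (hS : IsAmbient H S) :
    (∀ X : 𝒱.Obj, IsCellular H X → ∀ (V : X.V.X.Opens) (r : ℕ) (Z : Fin r → 𝒱.Obj)
      (f : ∀ j, Z j ⟶ X), IsCovered V Z f → ∀ i : ℕ, (O.Injective V i ↔ BoundaryD H i Z f)) ∧
    List.TFAE [
      StandardD H,
      ∀ (X : 𝒱.Obj) (V : X.V.X.Opens) (i : ℕ), CohVanishes H X (2 * i - 1) →
        ClInjective H X i → O.Injective V i,
      ∀ G ∈ S, ∀ (V : G.V.X.Opens) (i : ℕ), O.Injective V i,
      ∀ G ∈ S, ∀ Y ∈ R, ∀ (n : ℕ) (f : Y ⟶ G) (V : G.V.X.Opens), Y.dim = 2 * n →
        IsClosedImmersion f.hom → IsCovered V (fun _ : Fin 1 => Y) (fun _ => f) →
          O.Injective V (G.dim - n)] :=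
  ⟨fun X hX _ _ _ _ hc i => injective_iff hO (hfin X) hX hc i, standardD_tfae hO hfin hR hS⟩

end Pool.Agent.Results.MP_537ea0_ag.OpenInProducts
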